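import Pool.Agent.helper63.TWO.REA

/-!
# REB: white at the site excludes a black crossing (project TW)
-/

set_option autoImplicit false

namespace TP.TW

open DP MeasureTheory Finset

/-- First part: the path meets the line. -/
theorem REB_line {W : Set V} {u v : V} (h : DP.Con W u v) (q : ℤ) (hu : I u ≤ q) (hv : q ≤ I v) :
    ∃ w : V, I w = q ∧ DP.Con W u w ∧ DP.Con W w v := by
  have key : (I v ≤ q ∧ DP.Con W u v) ∨ ∃ w : V, I w = q ∧ DP.Con W u w ∧ DP.Con W w v := by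
    refine DP.Con.induct h (fun a => (I a ≤ q ∧ DP.Con W u a) ∨ ∃ w : V, I w = q ∧ DP.Con W u w ∧ DP.Con W w a)
      (Or.inl ⟨hu, DP.Con.refl h.1⟩) ?_
    rintro a b ha hb hab - (⟨h1, h2⟩ | ⟨w, h1, h2, h3⟩)
    · obtain ⟨-, h4⟩ := REA_adj hab
      by_cases hbq : I b ≤ q
      · exact Or.inl ⟨hbq, h2.tail hab hb⟩
      · exact Or.inr ⟨a, by omega, h2, DP.Con.single ha hab hb⟩
    · exact Or.inr ⟨w, h1, h2, h3.tail hab hb⟩
  rcases key with ⟨h1, h2⟩ | h1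
  · exact ⟨v, le_antisymm h1 hv, h2, DP.Con.refl (DP.Con.mem_right h)⟩
  · exact h1

theorem REB : REB_stmt := by
  intro β m S v₀ hm hv hbr hS hbad hH
  obtain ⟨u, v, hu, hv2, hc⟩ := hH
  have hvr : 0 ≤ v₀.2 ∧ v₀.2 ≤ m ∧ v₀.2 ≤ v₀.1 ∧ v₀.1 ≤ 2 * m + 1 + v₀.2 := hv
  have hc' : DP.Con {w | w ∈ rh m ∧ col (fil β S v₀ false) w = true} u v := hc
  have huW : 0 ≤ u.2 ∧ u.2 ≤ m ∧ u.2 ≤ u.1 ∧ u.1 ≤ 2 * m + 1 + u.2 := (hc'.1).1
  have hvW : 0 ≤ v.2 ∧ v.2 ≤ m ∧ v.2 ≤ v.1 ∧ v.1 ≤ 2 * m + 1 + v.2 := (DP.Con.mem_right hc').1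
  have hIu : I u = 0 := by
    unfold I
    omega
  have hIvm : I v = m := by
    unfold I
    omega
  have hIv : 0 ≤ I v₀ ∧ I v₀ ≤ m := by
    unfold I
    constructor <;> omega
  obtain ⟨w, hwI, huw, hwv⟩ := REB_line hc' (I v₀) (by omega) (by omega)
  have hwW := DP.Con.mem_right huw
  have hwr : 0 ≤ w.2 ∧ w.2 ≤ m ∧ w.2 ≤ w.1 ∧ w.1 ≤ 2 * m + 1 + w.2 := hwW.1
  have hwc : col (fil β S v₀ false) w = true := hwW.2
  -- the site is not in the brick
  have hne : w.2 ≠ v₀.2 := by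
    intro h2
    have hb := REA_same hbr hwI h2
    have h1 : fil β S v₀ false (br w) = true := hwc
    rw [hb] at h1
    unfold fil at h1
    rw [if_neg hS, if_pos rfl] at h1
    exact absurd h1 (by decide)
  obtain ⟨r, hr⟩ : ∃ r : ℕ, r = dI v₀ w := ⟨_, rfl⟩
  have hrI : r = (v₀.2 - w.2).natAbs := by
    rw [hr]
    unfold dI
    omega
  have hr1 : 1 ≤ r := by omega
  have hrm : (r : ℤ) ≤ m := by omega
  -- the far end
  obtain ⟨t, hwt, ht⟩ : ∃ t : V, DP.Con {w | w ∈ rh m ∧ col (fil β S v₀ false) w = true} w t ∧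
      r ≤ 8 * dI w t := by
    rcases le_or_gt m (2 * I w) with h | h
    · refine ⟨u, huw.symm, ?_⟩
      unfold dI
      omega
    · refine ⟨v, hwv, ?_⟩
      unfold dI
      omega
  obtain ⟨z, hz, hzr⟩ := REA_near hwt r hr1 ht
  apply hbad
  refine ⟨true, w, z, Or.inl hwI, by omega, by omega, ?_⟩
  show DP.Con {y | y ∈ til S ∧ col β y = true} w z
  refine DP.Con.mono ?_ hz
  rintro y ⟨⟨hy1, hy2⟩, hy3⟩
  have hyS : br y ∈ S := by
    by_contra hyn
    have h1 : fil β S v₀ false (br y) = true := hy2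
    unfold fil at h1
    rw [if_neg hyn] at h1
    by_cases hyv : br y = v₀
    · rw [if_pos hyv] at h1
      exact absurd h1 (by decide)
    · rw [if_neg hyv] at h1
      have h2 := of_decide_eq_true h1
      rw [REA_I_br, REA_br_snd] at h2
      unfold dI at hy3
      omega
  refine ⟨hyS, ?_⟩
  rw [← REA_fil_S (β := β) (v₀ := v₀) (q := false) hyS]
  exact hy2

end TP.TW
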